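import Mathlib
import Pool.Agent.Y780.Cz.Gen

set_option autoImplicit false

/-!
# The parity words of the periodic points of the 3x+k maps are far apart

The parity words (over a common period `p`) of two different periodic integers of the `3x+k` map
differ in at least `log p / log (log 3 / log 2) - O(log log p + log log k)` places. So for every `D`
only finitely many cycles of the `3x+k` map have two rotations of the parity word, starting at
different elements, which differ in at most `D` places. The same holds for the `qx+k` maps, `q` an odd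
prime.
-/

namespace Pool.Agent.Results.MP_7f88e4_nt.DistantParityWords

/-- The `qx+k` map on the integers, for odd `q` and `k`. -/
def T (q k x : ℤ) : ℤ := if x % 2 = 0 then x / 2 else (q * x + k) / 2

/-- The number of `i < n` for which one of the `i`-th iterates of `x`, `y` is even and the other one is
odd, that is, the Hamming distance of the parity words of length `n` of `x` and `y`. -/
def parityDist (q k x y : ℤ) (n : ℕ) : ℕ :=
  ((Finset.range n).filter fun i => (T q k)^[i] x % 2 ≠ (T q k)^[i] y % 2).card

open Pool.Agent.Y780 in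
lemma parityDist_eq (q k x y : ℤ) (n : ℕ) : parityDist q k x y n = Cz.dis q k x y n := by
  unfold parityDist Cz.dis
  rw [Finset.card_filter]
  apply Finset.sum_congr rfl
  intro i _
  change (if (Cz.T q k)^[i] x % 2 ≠ (Cz.T q k)^[i] y % 2 then 1 else 0) = _
  by_cases h : (Cz.T q k)^[i] x % 2 = (Cz.T q k)^[i] y % 2
  · rw [if_pos h, if_neg (not_not.2 h)]
  · rw [if_neg h, if_pos h]

open Pool.Agent.Y780 in
/-- Let `q` be an odd prime, for example `q = 3`.
(1) There is `A` such that for all odd `k` and all integers `x ≠ y` with `T^p x = x`, `T^p y = y`,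
`p ≥ 1`, whose parities differ at `D` of the `p` steps,
`p ≤ A (D + log |k| + (1 + log p) ^ 2) (log q / log 2) ^ D`.
(2) For all odd `k` and all `D` there are only finitely many integers `x` for which there are `p ≥ 1` and
`y ≠ x` such that `T^p x = x`, `T^p y = y` and the parities differ at no more than `D` of the `p`
steps. -/
theorem result (q : ℕ) (hq : q.Prime) (hq2 : q ≠ 2) :
    (∃ A : ℝ, ∀ k : ℤ, k % 2 = 1 → ∀ (x y : ℤ) (p : ℕ), 1 ≤ p → x ≠ y →
      (T q k)^[p] x = x → (T q k)^[p] y = y →
      (p : ℝ) ≤ A * (parityDist q k x y p + Real.log |(k : ℝ)| + (1 + Real.log p) ^ 2) *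
        (Real.log q / Real.log 2) ^ parityDist q k x y p) ∧
    (∀ k : ℤ, k % 2 = 1 → ∀ D : ℕ, {x : ℤ | ∃ (y : ℤ) (p : ℕ), 1 ≤ p ∧ x ≠ y ∧
      (T q k)^[p] x = x ∧ (T q k)^[p] y = y ∧ parityDist q k x y p ≤ D}.Finite) := by
  refine ⟨?_, fun k hk D => ?_⟩
  · obtain ⟨A, -, hA⟩ := Cz.gen hq hq2
    refine ⟨A, fun k hk x y p hp hxy hx hy => ?_⟩
    rw [parityDist_eq]
    exact hA k hk x y p hp hxy hx hy
  · refine (Cz.finite_close hq hq2 hk D).subset ?_
    rintro x ⟨y, p, hp, hxy, hx, hy, hD⟩
    rw [parityDist_eq] at hD
    exact ⟨y, p, hp, hxy, hx, hy, hD⟩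

end Pool.Agent.Results.MP_7f88e4_nt.DistantParityWords
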