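import Mathlib
import Pool.Agent.Y967.CM.E
import Pool.Agent.Y967.CM.SP
import Pool.Agent.Y967.CM.SQ
import Pool.Agent.Y967.TD.C

set_option autoImplicit false

/-!
# The orbits of a fixed integer under the `3x+k` maps, for almost all `k`

A sequence of integers `k n` is called spread if small sets of classes modulo `2 ^ t`, `2 ^ t ≤ N ^ δ`,
contain few of the `k n`, `n ≤ N`. The integers and the primes are spread; so are all polynomial values
of a spread sequence and the powers `a c ^ (e n)`, `c` odd, with spread exponents `e n`.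

Fix an odd integer `b`, for example `b = 1`, and let `k n` be a spread sequence of odd numbers. For almost
all `n` every orbit of the `3x+k` map, `k = k n`, which passes through one of the integers `3 ^ i b + k r`,
`i ≤ W n`, `|r| ≤ exp (W n)`, merges with the orbit of `b` within `κ log n` steps, for every `κ > 0`; here
`W n = √ log n / (log log n) ^ 17`. The bound for the number of exceptional `n ≤ N` does not depend on
`b`, and the exponent `1 / 2` of `log n` is sharp. In particular, for almost all `k ≡ 1, 5` modulo `6` all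
the integers `2 ^ u (3 ^ i + k r)` of this kind end in the same cycle, or all their orbits are unbounded.

Method. The orbit of `b` under the `3x+k` map is `k` times the orbit of the rational number `b / k` under
the `3x+1` map. Whether the affine neighbours have merged after `t` steps depends only on the class of
`b / k` modulo `2 ^ t`, and `k ↦ b / k` permutes the odd classes.
-/

namespace Pool.Agent.Results.MP_7f88e4_nt.FixedStartAlmostAllK

open Filter Topology

/-- the `3x+k` map on the integers -/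
def T (k x : ℤ) : ℤ := if x % 2 = 0 then x / 2 else (3 * x + k) / 2

/-- The orbit of `x` is eventually periodic. -/
def EvPer (k x : ℤ) : Prop := ∃ m p : ℕ, 1 ≤ p ∧ (T k)^[m + p] x = (T k)^[m] x

/-- The sequence `x` is spread modulo powers of two: there is `δ > 0` such that for every `ε > 0` there
are `η > 0` and `N₀` such that, for `N ≥ N₀` and `2 ^ t ≤ N ^ δ`, at most `η 2 ^ t` classes modulo `2 ^ t`
contain together at most `ε N` of the integers `x n`, `1 ≤ n ≤ N`. -/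
def Spread (x : ℕ → ℤ) : Prop :=
  ∃ δ : ℝ, 0 < δ ∧ ∀ ε : ℝ, 0 < ε → ∃ η : ℝ, 0 < η ∧ ∃ N₀ : ℕ, ∀ N : ℕ, N₀ ≤ N →
    ∀ t : ℕ, (2 : ℝ) ^ t ≤ (N : ℝ) ^ δ → ∀ A : Finset ℤ, (A.card : ℝ) ≤ η * 2 ^ t →
      (({n | 1 ≤ n ∧ n ≤ N ∧ ∃ a ∈ A, x n ≡ a [ZMOD 2 ^ t]} : Set ℕ).ncard : ℝ) ≤ ε * N

/-- `P n` holds for almost all `n`, in the sense of natural density. -/
def AlmostAll (P : ℕ → Prop) : Prop :=
  Tendsto (fun N : ℕ => (({n | 1 ≤ n ∧ n ≤ N ∧ ¬ P n} : Set ℕ).ncard : ℝ) / N) atTop (𝓝 0)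

/-- The range: `W n = √ log n / (log log n) ^ 17`. -/
noncomputable def W (n : ℕ) : ℝ := √ (Real.log n) / (Real.log (Real.log n)) ^ 17

/-- If an orbit of the `3x+k` map passes at time `j` through `3 ^ i b + k r` with `i ≤ W n` and
`|r| ≤ exp (W n)`, then at time `j + s` it is at the point where the orbit of `b` is at time `s`. -/
def Merged (k b : ℤ) (n s : ℕ) : Prop :=
  ∀ (z : ℤ) (j i : ℕ) (r : ℤ), (i : ℝ) ≤ W n → |(r : ℝ)| ≤ Real.exp (W n) →
    (T k)^[j] z = 3 ^ i * b + k * r → (T k)^[j + s] z = (T k)^[s] b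

open Pool.Agent.H499R2.CO Pool.Agent.Y967.CM Pool.Agent.Y967.TD

theorem ncard_eq (P : ℕ → Prop) [DecidablePred P] (N : ℕ) :
    ({n | 1 ≤ n ∧ n ≤ N ∧ P n} : Set ℕ).ncard = ((Finset.Icc 1 N).filter P).card := by
  rw [← Set.ncard_coe_finset]
  congr 1
  ext n
  simp only [Set.mem_ofPred_eq, Finset.coe_filter, Finset.mem_Icc, and_assoc]

theorem spread_iff (x : ℕ → ℤ) : Spread x ↔ Pool.Agent.Y967.CM.Spread x := by
  classical
  have key : ∀ (N t : ℕ) (A : Finset ℤ),
      (({n | 1 ≤ n ∧ n ≤ N ∧ ∃ a ∈ A, x n ≡ a [ZMOD 2 ^ t]} : Set ℕ).ncard : ℝ) =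
      (((Finset.Icc 1 N).filter (fun n => ∃ a ∈ A, x n ≡ a [ZMOD 2 ^ t])).card : ℝ) := by
    intro N t A
    rw [ncard_eq]
  unfold Spread Pool.Agent.Y967.CM.Spread
  simp only [key]

theorem ncard_mono {P Q : ℕ → Prop} (h : ∀ n, 1 ≤ n → P n → Q n) (N : ℕ) :
    (({n | 1 ≤ n ∧ n ≤ N ∧ P n} : Set ℕ).ncard : ℝ) ≤ (({n | 1 ≤ n ∧ n ≤ N ∧ Q n} : Set ℕ).ncard : ℝ) := by
  classical
  rw [ncard_eq, ncard_eq]
  have : ((Finset.Icc 1 N).filter P) ⊆ ((Finset.Icc 1 N).filter Q) := by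
    intro n hn
    rw [Finset.mem_filter] at hn ⊢
    exact ⟨hn.1, h n (Finset.mem_Icc.1 hn.1).1 hn.2⟩
  exact_mod_cast Finset.card_le_card this

theorem sq_one {b : ℤ} (h : b ^ 2 = 1) : b = 1 ∨ b = -1 := by
  have h2 : (b - 1) * (b + 1) = 0 := by linear_combination h
  rcases mul_eq_zero.1 h2 with h3 | h3
  · left; omega
  · right; omega

theorem main {k : ℕ → ℤ} (hk : Spread k) (hodd : ∀ n, 1 ≤ n → Odd (k n)) {κ : ℝ} (hκ : 0 < κ)
    {ε : ℝ} (hε : 0 < ε) : ∃ N₀ : ℕ, ∀ N : ℕ, N₀ ≤ N → ∀ b : ℤ, Odd b →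
      (({n | 1 ≤ n ∧ n ≤ N ∧ ¬ Merged (k n) b n ⌊κ * Real.log n⌋₊} : Set ℕ).ncard : ℝ) ≤ ε * N := by
  classical
  obtain ⟨δ, hδ, h⟩ := ((spread_iff k).1 hk).spr
  obtain ⟨N0, hN0⟩ := eventually_atTop.1 (all_forms_U hδ (PSpr_b h)
    (fun _ n hn => Int.odd_iff.1 (hodd n hn)) hκ hε)
  refine ⟨N0, fun N hN b hb => ?_⟩
  have h1 := hN0 N hN ⟨b, Int.odd_iff.1 hb⟩
  rw [ncard_eq]
  refine le_trans ?_ h1
  apply Nat.cast_le.2
  apply Finset.card_le_card
  intro n hn
  rw [Finset.mem_filter] at hn ⊢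
  refine ⟨hn.1, fun hcon => hn.2 ?_⟩
  intro z j i r hi hr hz
  rw [add_comm j, Function.iterate_add_apply, hz]
  exact hcon i r hi hr

theorem almost_of {P : ℕ → Prop} (h : ∀ ε : ℝ, 0 < ε → ∃ N₀ : ℕ, ∀ N : ℕ, N₀ ≤ N →
    (({n | 1 ≤ n ∧ n ≤ N ∧ ¬ P n} : Set ℕ).ncard : ℝ) ≤ ε * N) : AlmostAll P := by
  unfold AlmostAll
  rw [Metric.tendsto_nhds]
  intro ε hε
  obtain ⟨N0, hN0⟩ := h (ε / 2) (by positivity)
  filter_upwards [eventually_ge_atTop N0, eventually_gt_atTop 0] with N h1 h2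
  have h3 := hN0 N h1
  have hN : (0 : ℝ) < N := by exact_mod_cast h2
  rw [Real.dist_eq, sub_zero, abs_of_nonneg (by positivity), div_lt_iff₀ hN]
  nlinarith

theorem halves (k : ℤ) (u : ℕ) : ∀ y : ℤ, (T k)^[u] (2 ^ u * y) = y := by
  induction u with
  | zero => intro y; simp
  | succ u ih =>
    intro y
    rw [Function.iterate_succ_apply]
    have e : T k (2 ^ (u + 1) * y) = 2 ^ u * y := by
      have e1 : (2 : ℤ) ^ (u + 1) * y = 2 * (2 ^ u * y) := by ring
      rw [e1]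
      unfold T
      rw [if_pos (by omega), Int.mul_ediv_cancel_left _ (by norm_num)]
    rw [e, ih]

theorem evper_iter (k : ℤ) (j : ℕ) (x : ℤ) : EvPer k ((T k)^[j] x) ↔ EvPer k x := by
  constructor
  · rintro ⟨m, p, hp, h⟩
    refine ⟨m + j, p, hp, ?_⟩
    rw [← Function.iterate_add_apply, ← Function.iterate_add_apply] at h
    rw [show m + j + p = m + p + j by ring]
    exact h
  · rintro ⟨m, p, hp, h⟩
    refine ⟨m, p, hp, ?_⟩
    have h1 : (T k)^[j] ((T k)^[m + p] x) = (T k)^[j] ((T k)^[m] x) := by rw [h]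
    rw [← Function.iterate_add_apply, ← Function.iterate_add_apply] at h1
    rw [← Function.iterate_add_apply, ← Function.iterate_add_apply, Nat.add_comm (m + p) j,
      Nat.add_comm m j]
    exact h1

theorem reach_iter {k c : ℤ} (hc : ∃ p, 1 ≤ p ∧ (T k)^[p] c = c) (j : ℕ) (x : ℤ) :
    (∃ l, (T k)^[l] ((T k)^[j] x) = c) ↔ ∃ l, (T k)^[l] x = c := by
  obtain ⟨p, hp, hc⟩ := hc
  have hper : ∀ q : ℕ, (T k)^[q * p] c = c := by
    intro q
    induction q with
    | zero => simp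
    | succ q ih => rw [Nat.succ_mul, Nat.add_comm, Function.iterate_add_apply, ih, hc]
  constructor
  · rintro ⟨l, hl⟩
    exact ⟨l + j, by rw [Function.iterate_add_apply]; exact hl⟩
  · rintro ⟨l, hl⟩
    -- go on until the time is at least `j`
    refine ⟨l + j * p - j, ?_⟩
    have h1 : j ≤ j * p := Nat.le_mul_of_pos_right _ (by omega)
    rw [← Function.iterate_add_apply, show l + j * p - j + j = j * p + l by omega,
      Function.iterate_add_apply, hl, hper]

/-- (1) The sequences `n`, the primes (`Nat.nth Nat.Prime n`) and `6 n + a` are spread; if `x` is spread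
then so is `f (x n)` for every nonconstant polynomial `f` with integer coefficients, and if the sequence
of natural numbers `e` is spread then so is `a c ^ (e n)` for all `a ≠ 0` and odd `c ≠ 1, -1`.
Let `k` be spread, with `k n` odd for `n ≥ 1`.
(2) For all `κ, ε > 0` there is `N₀` such that, for all `N ≥ N₀` and all odd `b`, the following holds for
all but `ε N` of the `n ≤ N`: if an orbit of the `3x+k` map, `k = k n`, passes at time `j` through a point
`3 ^ i b + k r` with `i ≤ W n` and `|r| ≤ exp (W n)`, then at time `j + ⌊κ log n⌋` it is at the point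
where the orbit of `b` is at time `⌊κ log n⌋`.
(3) There is `c > 0` such that for every `ε > 0` there are `K` and `N₀` such that, for all `N ≥ N₀` and
all odd `b`: for `K √ log N ≤ i ≤ c log N` the orbits of `3 ^ i b` and `b` under the `3x+k` map, `k = k n`,
are at different points at all times `t ≤ c log N`, for all but `ε N` of the `n ≤ N` with `k n` prime to
`b`; and for all but `ε N` of these `n` there is `r ≤ exp (K √ log N)` such that the orbits of `b + k r`
and `b` are at different points at all times `t ≤ c log N`.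
(4) Let `a` be `1` or `5` and `b` odd. For almost all `n`, with `k = 6 n + a`, for all `i ≤ W n`,
`|r| ≤ exp (W n)` and all `u`, the orbit of `2 ^ u (3 ^ i b + k r)` under the `3x+k` map is eventually
periodic if and only if the orbit of `b` is, and both orbits reach the same cycles. -/
theorem result :
    (Spread (fun n => (n : ℤ)) ∧ Spread (fun n => ((Nat.nth Nat.Prime n : ℕ) : ℤ)) ∧
      (∀ a : ℤ, Spread (fun n => 6 * (n : ℤ) + a)) ∧
      (∀ x : ℕ → ℤ, Spread x → ∀ f : Polynomial ℤ, 1 ≤ f.natDegree → Spread (fun n => f.eval (x n))) ∧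
      (∀ e : ℕ → ℕ, Spread (fun n => (e n : ℤ)) → ∀ a c : ℤ, a ≠ 0 → c % 2 = 1 → c ≠ 1 → c ≠ -1 →
        Spread (fun n => a * c ^ e n))) ∧
    (∀ k : ℕ → ℤ, Spread k → (∀ n, 1 ≤ n → Odd (k n)) →
      (∀ κ ε : ℝ, 0 < κ → 0 < ε → ∃ N₀ : ℕ, ∀ N : ℕ, N₀ ≤ N → ∀ b : ℤ, Odd b →
        (({n | 1 ≤ n ∧ n ≤ N ∧ ¬ Merged (k n) b n ⌊κ * Real.log n⌋₊} : Set ℕ).ncard : ℝ) ≤ ε * N) ∧
      (∃ c : ℝ, 0 < c ∧ ∀ ε : ℝ, 0 < ε → ∃ K : ℝ, 0 < K ∧ ∃ N₀ : ℕ, ∀ N : ℕ, N₀ ≤ N → ∀ b : ℤ, Odd b →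
        (∀ i : ℕ, K * √ (Real.log N) ≤ i → (i : ℝ) ≤ c * Real.log N →
          (({n | 1 ≤ n ∧ n ≤ N ∧ IsCoprime b (k n) ∧ ∃ t : ℕ, (t : ℝ) ≤ c * Real.log N ∧
            (T (k n))^[t] (3 ^ i * b) = (T (k n))^[t] b} : Set ℕ).ncard : ℝ) ≤ ε * N) ∧
        (({n | 1 ≤ n ∧ n ≤ N ∧ IsCoprime b (k n) ∧ ¬ ∃ r : ℕ, (r : ℝ) ≤ Real.exp (K * √ (Real.log N)) ∧
          ∀ t : ℕ, (t : ℝ) ≤ c * Real.log N → (T (k n))^[t] (b + k n * r) ≠ (T (k n))^[t] b}
          : Set ℕ).ncard : ℝ) ≤ ε * N)) ∧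
    (∀ a b : ℤ, (a = 1 ∨ a = 5) → Odd b → AlmostAll (fun n => ∀ (k r : ℤ) (i u : ℕ), k = 6 * n + a →
      (i : ℝ) ≤ W n → |(r : ℝ)| ≤ Real.exp (W n) →
        (EvPer k (2 ^ u * (3 ^ i * b + k * r)) ↔ EvPer k b) ∧
        ∀ c : ℤ, (∃ p, 1 ≤ p ∧ (T k)^[p] c = c) →
          ((∃ l, (T k)^[l] (2 ^ u * (3 ^ i * b + k * r)) = c) ↔ ∃ l, (T k)^[l] b = c))) := by
  classical
  have hid : Spread (fun n => (n : ℤ)) := (spread_iff _).2 (spr_id.spread one_pos)
  have hpr : Spread (fun n => ((Nat.nth Nat.Prime n : ℕ) : ℤ)) :=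
    (spread_iff _).2 (spr_prime.spread (by norm_num))
  have hpoly : ∀ x : ℕ → ℤ, Spread x → ∀ f : Polynomial ℤ, 1 ≤ f.natDegree →
      Spread (fun n => f.eval (x n)) := fun x hx f hf =>
    (spread_iff _).2 (((spread_iff x).1 hx).poly hf)
  have hlin : ∀ a : ℤ, Spread (fun n => 6 * (n : ℤ) + a) := by
    intro a
    have h := hpoly _ hid (Polynomial.C 6 * Polynomial.X + Polynomial.C a) (by
      rw [Polynomial.natDegree_linear (by norm_num)])
    have e : (fun n : ℕ => (Polynomial.C 6 * Polynomial.X + Polynomial.C a : Polynomial ℤ).eval (n : ℤ)) =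
        fun n : ℕ => 6 * (n : ℤ) + a := by
      funext n
      simp
    rw [e] at h
    exact h
  refine ⟨⟨hid, hpr, hlin, hpoly, ?_⟩, fun k hk hodd => ⟨fun κ ε hκ hε => main hk hodd hκ hε, ?_⟩,
    fun a b ha hb => ?_⟩
  · intro e he a b ha hb h1 h2
    have h3 : b ^ 2 ≠ 1 := by
      intro h
      rcases sq_one h with h | h
      · exact h1 h
      · exact h2 h
    obtain ⟨δ, hδ, h⟩ := ((spread_iff _).1 he).spr
    exact (spread_iff _).2 ((spr_exp h ha hb h3).spread hδ)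
  · obtain ⟨δ, hδ, h⟩ := ((spread_iff k).1 hk).spr
    obtain ⟨c, hc, h1⟩ := sharp_b hδ h (fun n hn => Int.odd_iff.1 (hodd n hn))
    refine ⟨c, hc, fun ε hε => ?_⟩
    obtain ⟨K, hK, N0, h2⟩ := h1 ε hε
    refine ⟨K, hK, N0, fun N hN b hb => ?_⟩
    obtain ⟨h3, h4⟩ := h2 N hN b (Int.odd_iff.1 hb)
    refine ⟨fun i hi hi' => ?_, ?_⟩
    · rw [ncard_eq]
      refine le_trans (le_of_eq ?_) (h3 i hi hi')
      congr!
    · rw [ncard_eq]
      refine le_trans (le_of_eq ?_) h4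
      congr!
  · apply almost_of
    intro ε hε
    obtain ⟨N0, hN0⟩ := main (hlin a) (fun n _ => by
      rw [Int.odd_iff]
      rcases ha with ha | ha <;> subst ha <;> omega) one_pos hε
    refine ⟨N0, fun N hN => le_trans ?_ (hN0 N hN b hb)⟩
    apply ncard_mono
    intro n _ hn hM
    apply hn
    intro k r i u hk hi hr
    rw [← hk] at hM
    have h1 := hM (2 ^ u * (3 ^ i * b + k * r)) u i r hi hr (halves k u _)
    refine ⟨?_, fun c hc => ?_⟩
    · rw [← evper_iter k _ (2 ^ u * (3 ^ i * b + k * r)), h1, evper_iter]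
    · rw [← reach_iter hc _ (2 ^ u * (3 ^ i * b + k * r)), h1, reach_iter hc]

end Pool.Agent.Results.MP_7f88e4_nt.FixedStartAlmostAllK
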