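import Mathlib
import Pool.Agent.Y967.CM.E
import Pool.Agent.Y967.CM.SP
import Pool.Agent.Y967.CM.SQ
import Pool.Agent.Y967.TD.C
import Pool.Agent.Y967.TD.O

set_option autoImplicit false

/-!
# When do the orbits of two fixed integers under the `3x+k` map meet?

Let `b`, `b'` be nonzero integers. If the quotient `b / b'` is of the form `2 ^ u 3 ^ v`, with integers
`u`, `v` of any sign, then for almost all odd `k` the orbits of `b` and `b'` under the `3x+k` map meet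
within `κ log k` steps, for every `κ > 0`. For all other pairs the orbits of `b` and `b'` are disjoint
for a power of `k` steps, for almost all odd `k`: for every `ε > 0` there is `c > 0` such that the
proportion of the odd `k` for which they meet within `k ^ c` steps is at most `ε`. The same is true for
all `b`, `b'` of absolute value at most `k ^ c` simultaneously: only the coincidences which come from
the multiplicative relation occur. For prime `k = q` the exponent `c` can be any number below `1 / 3`: at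
most `C P ^ 3 / log P` primes `q` have a further coincidence within `P` steps.

Method. The first part is the affine structure of the orbits of a fixed integer for almost all `k`. For the
second part, a coincidence gives a congruence `2 ^ j 3 ^ o b ≡ 2 ^ i 3 ^ o' b'` modulo `k`, and the
integers of this kind which are not zero have few large prime factors, while almost all `k` have a large
prime factor.
-/

namespace Pool.Agent.Results.MP_7f88e4_nt.MeetingDichotomy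

open Filter Topology

/-- the `3x+k` map on the integers -/
def T (k x : ℤ) : ℤ := if x % 2 = 0 then x / 2 else (3 * x + k) / 2

/-- the number of odd terms among the first `j` terms of the orbit of `x` -/
noncomputable def odds (k : ℤ) (j : ℕ) (x : ℤ) : ℕ := ({l | l < j ∧ Odd ((T k)^[l] x)} : Set ℕ).ncard

/-- The orbits of `b` and `b'` under the `3x+k` map meet within `L` steps. -/
def Meet (k b b' : ℤ) (L : ℝ) : Prop :=
  ∃ i j : ℕ, (i : ℝ) ≤ L ∧ (j : ℝ) ≤ L ∧ (T k)^[i] b = (T k)^[j] b'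

/-- `b` and `b'` are equal up to a factor `2 ^ u 3 ^ v` with integers `u`, `v` of any sign. -/
def Related (b b' : ℤ) : Prop := ∃ u v u' v' : ℕ, 2 ^ u * 3 ^ v * b = 2 ^ u' * 3 ^ v' * b'

/-- A coincidence between the orbits of `b` and `b'` which does not come from a multiplicative relation
between `b` and `b'`. -/
def Sporadic (k b b' : ℤ) (L : ℝ) : Prop :=
  ∃ i j : ℕ, (i : ℝ) ≤ L ∧ (j : ℝ) ≤ L ∧ (T k)^[i] b = (T k)^[j] b' ∧
    2 ^ j * 3 ^ odds k i b * b ≠ 2 ^ i * 3 ^ odds k j b' * b'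

open Pool.Agent.H499R2.CO Pool.Agent.Y967.CM Pool.Agent.Y967.TD

theorem T_eq (k : ℤ) : T k = Pool.Agent.Y967.MD.Tk k := rfl

theorem odds_eq (k : ℤ) (j : ℕ) (x : ℤ) : odds k j x = Pool.Agent.Y967.MD.odds k j x := by
  unfold odds Pool.Agent.Y967.MD.odds
  rw [← Set.ncard_coe_finset]
  congr 1
  ext l
  simp only [Set.mem_ofPred_eq, Finset.coe_filter, Finset.mem_range, Int.odd_iff, T_eq]

theorem ncard_eq (P : ℕ → Prop) [DecidablePred P] (N : ℕ) :
    ({n | 1 ≤ n ∧ n ≤ N ∧ P n} : Set ℕ).ncard = ((Finset.Icc 1 N).filter P).card := by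
  rw [← Set.ncard_coe_finset]
  congr 1
  ext n
  simp only [Set.mem_ofPred_eq, Finset.coe_filter, Finset.mem_Icc, and_assoc]

theorem kap_tendsto : Tendsto (fun n : ℕ => kap n) atTop atTop := by
  have h1 : Tendsto (fun x : ℝ => Real.log x ^ (17 : ℝ) / x ^ (1 / 2 : ℝ)) atTop (𝓝 0) :=
    (isLittleO_log_rpow_rpow_atTop 17 (by norm_num)).tendsto_div_nhds_zero
  have h2 : Tendsto (fun x : ℝ => √x / Real.log x ^ 17) atTop atTop := by
    have h3 : Tendsto (fun x : ℝ => Real.log x ^ (17 : ℝ) / x ^ (1 / 2 : ℝ)) atTop (𝓝[>] 0) := by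
      refine tendsto_nhdsWithin_iff.2 ⟨h1, ?_⟩
      filter_upwards [eventually_gt_atTop 1] with x hx
      have hl := Real.log_pos hx
      exact Set.mem_Ioi.2 (by positivity)
    have h4 := h3.inv_tendsto_nhdsGT_zero
    refine h4.congr ?_
    intro x
    rw [Pi.inv_apply, inv_div, Real.sqrt_eq_rpow]
    congr 1
    exact_mod_cast Real.rpow_natCast (Real.log x) 17
  exact h2.comp (Real.tendsto_log_atTop.comp tendsto_natCast_atTop_atTop)

theorem main {k : ℕ → ℤ} (hk : Pool.Agent.Y967.CM.Spread k) (hodd : ∀ n, 1 ≤ n → k n % 2 = 1)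
    {κ : ℝ} (hκ : 0 < κ) {ε : ℝ} (hε : 0 < ε) (g : ℤ) (hg : Odd g) :
    ∃ N₀ : ℕ, ∀ N : ℕ, N₀ ≤ N →
      (({n | 1 ≤ n ∧ n ≤ N ∧ ¬ ∀ i : ℕ, (i : ℝ) ≤ kap n →
        (T (k n))^[⌊κ * Real.log n⌋₊] (3 ^ i * g) = (T (k n))^[⌊κ * Real.log n⌋₊] g}
          : Set ℕ).ncard : ℝ) ≤ ε * N := by
  classical
  obtain ⟨δ, hδ, h⟩ := hk.spr
  obtain ⟨N0, hN0⟩ := eventually_atTop.1 (all_forms_U hδ (PSpr_b h)
    (fun _ n hn => hodd n hn) hκ hε)
  refine ⟨N0, fun N hN => ?_⟩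
  have h1 := hN0 N hN ⟨g, Int.odd_iff.1 hg⟩
  rw [ncard_eq]
  refine le_trans ?_ h1
  apply Nat.cast_le.2
  apply Finset.card_le_card
  intro n hn
  rw [Finset.mem_filter] at hn ⊢
  refine ⟨hn.1, fun hcon => hn.2 ?_⟩
  intro i hi
  have h2 := hcon i 0 hi (by
    rw [Int.cast_zero, abs_zero]; positivity)
  rw [mul_zero, add_zero] at h2
  exact h2

theorem spread_lin : Pool.Agent.Y967.CM.Spread (fun n => 2 * (n : ℤ) + 1) := by
  have hid : Pool.Agent.Y967.CM.Spread (fun n => (n : ℤ)) := spr_id.spread one_pos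
  have hsp := hid.poly (f := Polynomial.C 2 * Polynomial.X + Polynomial.C 1) (by
      rw [Polynomial.natDegree_linear (by norm_num)])
  have e : (fun n : ℕ => (Polynomial.C 2 * Polynomial.X + Polynomial.C 1 : Polynomial ℤ).eval (n : ℤ)) =
        fun n : ℕ => 2 * (n : ℤ) + 1 := by
    funext n
    simp
  rw [e] at hsp
  exact hsp

theorem prime_odd {n : ℕ} (hn : 1 ≤ n) : ((Nat.nth Nat.Prime n : ℕ) : ℤ) % 2 = 1 := by
  have h1 : (Nat.nth Nat.Prime n).Prime := Nat.prime_nth_prime n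
  have h2 : Nat.nth Nat.Prime 0 < Nat.nth Nat.Prime n :=
    Nat.nth_strictMono Nat.infinite_setOfPred_prime (by omega)
  rw [Nat.nth_prime_zero_eq_two] at h2
  rcases h1.eq_two_or_odd with h3 | h3
  · omega
  · omega

theorem halves (k : ℤ) (u : ℕ) : ∀ y : ℤ, (T k)^[u] (2 ^ u * y) = y := by
  induction u with
  | zero => intro y; simp
  | succ u ih =>
    intro y
    rw [Function.iterate_succ_apply]
    have e : T k (2 ^ (u + 1) * y) = 2 ^ u * y := by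
      have e1 : (2 : ℤ) ^ (u + 1) * y = 2 * (2 ^ u * y) := by ring
      rw [e1]
      unfold T
      rw [if_pos (by omega), Int.mul_ediv_cancel_left _ (by norm_num)]
    rw [e, ih]

theorem decomp {b : ℤ} (hb : b ≠ 0) : ∃ (s t : ℕ) (g : ℤ), b = 2 ^ s * 3 ^ t * g ∧ ¬ (2 : ℤ) ∣ g ∧ ¬ (3 : ℤ) ∣ g := by
  have h2 : FiniteMultiplicity (2 : ℤ) b := Int.finiteMultiplicity_iff.2 ⟨by norm_num, hb⟩
  obtain ⟨c, hc, hc2⟩ := h2.exists_eq_pow_mul_and_not_dvd
  have hc0 : c ≠ 0 := by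
    rintro rfl
    exact hc2 (dvd_zero _)
  have h3 : FiniteMultiplicity (3 : ℤ) c := Int.finiteMultiplicity_iff.2 ⟨by norm_num, hc0⟩
  obtain ⟨g, hg, hg2⟩ := h3.exists_eq_pow_mul_and_not_dvd
  refine ⟨multiplicity 2 b, multiplicity 3 c, g, ?_, ?_, hg2⟩
  · rw [mul_assoc, ← hg]
    exact hc
  · intro h
    apply hc2
    rw [hg]
    exact h.mul_left _

theorem cop {g : ℤ} (h2 : ¬ (2 : ℤ) ∣ g) (h3 : ¬ (3 : ℤ) ∣ g) (a c : ℕ) : IsCoprime g ((2 : ℤ) ^ a * 3 ^ c) := by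
  have h2' : IsCoprime g 2 := (Int.prime_two.coprime_iff_not_dvd.2 h2).symm
  have h3' : IsCoprime g 3 := (Int.prime_three.coprime_iff_not_dvd.2 h3).symm
  exact (h2'.pow_right).mul_right (h3'.pow_right)

theorem unique {g g' : ℤ} (h2 : ¬ (2 : ℤ) ∣ g) (h3 : ¬ (3 : ℤ) ∣ g) (h2' : ¬ (2 : ℤ) ∣ g') (h3' : ¬ (3 : ℤ) ∣ g')
    {a c a' c' : ℕ} (h : 2 ^ a * 3 ^ c * g = 2 ^ a' * 3 ^ c' * g') : g = g' := by
  have d1 : g ∣ g' := by
    have : g ∣ 2 ^ a' * 3 ^ c' * g' := by rw [← h]; exact dvd_mul_left _ _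
    exact (cop h2 h3 a' c').dvd_of_dvd_mul_left this
  have d2 : g' ∣ g := by
    have : g' ∣ 2 ^ a * 3 ^ c * g := by rw [h]; exact dvd_mul_left _ _
    exact (cop h2' h3' a c).dvd_of_dvd_mul_left this
  have hg0 : g ≠ 0 := by
    rintro rfl
    exact h2 (dvd_zero _)
  rcases Int.natAbs_eq_natAbs_iff.1 (Int.natAbs_eq_of_dvd_dvd d1 d2) with h4 | h4
  · exact h4
  · exfalso
    have h5 : g' = -g := by omega
    rw [h5] at h
    have h6 : ((2 : ℤ) ^ a * 3 ^ c + 2 ^ a' * 3 ^ c') * g = 0 := by linear_combination h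
    rcases mul_eq_zero.1 h6 with h7 | h7
    · have : (0 : ℤ) < 2 ^ a * 3 ^ c + 2 ^ a' * 3 ^ c' := by positivity
      omega
    · exact hg0 h7

theorem fast_seq {k : ℕ → ℤ} (hk : Pool.Agent.Y967.CM.Spread k) (hodd : ∀ n, 1 ≤ n → k n % 2 = 1)
    {b b' : ℤ} (hb : b ≠ 0) (hb' : b' ≠ 0) (hR : Related b b') {κ ε : ℝ} (hκ : 0 < κ) (hε : 0 < ε) :
    ∃ N₀ : ℕ, ∀ N : ℕ, N₀ ≤ N →
      (({n | 1 ≤ n ∧ n ≤ N ∧ ¬ Meet (k n) b b' (κ * Real.log n)} : Set ℕ).ncard : ℝ) ≤ ε * N := by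
  classical
  obtain ⟨s, t, g, e1, hg2, hg3⟩ := decomp hb
  obtain ⟨s', t', g', e2, hg2', hg3'⟩ := decomp hb'
  have hgg : g = g' := by
    obtain ⟨u, v, u', v', h⟩ := hR
    refine unique hg2 hg3 hg2' hg3' (a := u + s) (c := v + t) (a' := u' + s') (c' := v' + t') ?_
    rw [e1, e2] at h
    rw [pow_add, pow_add, pow_add, pow_add]
    linear_combination h
  subst hgg
  have hgo : Odd g := by
    rw [Int.odd_iff]
    rw [Int.dvd_iff_emod_eq_zero] at hg2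
    omega
  obtain ⟨N1, hN1⟩ := main hk hodd (show 0 < κ / 2 by positivity) (show 0 < ε / 2 by positivity) g hgo
  have htl : Tendsto (fun n : ℕ => κ / 2 * Real.log n) atTop atTop :=
    (Real.tendsto_log_atTop.comp tendsto_natCast_atTop_atTop).const_mul_atTop (by positivity)
  obtain ⟨K, hK⟩ := eventually_atTop.1 ((htl.eventually_ge_atTop ((s + s' : ℕ) : ℝ)).and
    (kap_tendsto.eventually_ge_atTop ((t + t' : ℕ) : ℝ)))
  refine ⟨max N1 ⌈2 * (K : ℝ) / ε⌉₊, fun N hN => ?_⟩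
  have hN1' : N1 ≤ N := (le_max_left _ _).trans hN
  have hN2 : 2 * (K : ℝ) / ε ≤ N :=
    (Nat.le_ceil _).trans (by exact_mod_cast (le_max_right _ _).trans hN)
  have h1 := hN1 N hN1'
  rw [ncard_eq] at h1 ⊢
  have hsub : (Finset.Icc 1 N).filter (fun n : ℕ => ¬ Meet (k n) b b' (κ * Real.log n)) ⊆
      Finset.Icc 1 K ∪ (Finset.Icc 1 N).filter (fun n : ℕ => ¬ ∀ i : ℕ, (i : ℝ) ≤ kap n →
        (T (k n))^[⌊κ / 2 * Real.log n⌋₊] (3 ^ i * g) =
          (T (k n))^[⌊κ / 2 * Real.log n⌋₊] g) := by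
    intro n hn
    rw [Finset.mem_filter, Finset.mem_Icc] at hn
    obtain ⟨⟨hn1, hnN⟩, hnM⟩ := hn
    rw [Finset.mem_union, Finset.mem_Icc, Finset.mem_filter, Finset.mem_Icc]
    by_cases hnK : n ≤ K
    · left; exact ⟨hn1, hnK⟩
    · right
      refine ⟨⟨hn1, hnN⟩, fun hall => hnM ?_⟩
      obtain ⟨hs, ht⟩ := hK n (by omega)
      have hlog0 : 0 ≤ κ / 2 * Real.log n := mul_nonneg (by positivity) (Real.log_natCast_nonneg n)
      have hfl : ((⌊κ / 2 * Real.log n⌋₊ : ℕ) : ℝ) ≤ κ / 2 * Real.log n := Nat.floor_le hlog0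
      push_cast at hs ht
      have hs0 : (0 : ℝ) ≤ (s : ℝ) := Nat.cast_nonneg _
      have hs0' : (0 : ℝ) ≤ (s' : ℝ) := Nat.cast_nonneg _
      have ht0 : (0 : ℝ) ≤ (t : ℝ) := Nat.cast_nonneg _
      have ht0' : (0 : ℝ) ≤ (t' : ℝ) := Nat.cast_nonneg _
      refine ⟨⌊κ / 2 * Real.log n⌋₊ + s, ⌊κ / 2 * Real.log n⌋₊ + s', ?_, ?_, ?_⟩
      · push_cast; linarith
      · push_cast; linarith
      · rw [Function.iterate_add_apply, Function.iterate_add_apply, e1, e2, mul_assoc, mul_assoc,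
          halves, halves, hall t (by linarith), hall t' (by linarith)]
  have h2 := (Finset.card_le_card hsub).trans (Finset.card_union_le _ _)
  rw [Nat.card_Icc, Nat.add_sub_cancel] at h2
  have h4 : (((Finset.Icc 1 N).filter
      (fun n : ℕ => ¬ Meet (k n) b b' (κ * Real.log n))).card : ℝ) ≤ K + ε / 2 * N := by
    refine le_trans (Nat.cast_le.2 h2) ?_
    push_cast
    linarith
  rw [div_le_iff₀ hε] at hN2
  linarith

theorem fast {b b' : ℤ} (hb : b ≠ 0) (hb' : b' ≠ 0) (hR : Related b b') {κ ε : ℝ} (hκ : 0 < κ) (hε : 0 < ε) :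
    ∃ N₀ : ℕ, ∀ N : ℕ, N₀ ≤ N →
      (({k | 1 ≤ k ∧ k ≤ N ∧ Odd k ∧ ¬ Meet k b b' (κ * Real.log k)} : Set ℕ).ncard : ℝ) ≤ ε * N := by
  classical
  obtain ⟨N1, hN1⟩ := fast_seq spread_lin (fun n hn => by omega) hb hb' hR hκ (show 0 < ε / 2 by positivity)
  refine ⟨max N1 ⌈2 / ε⌉₊, fun N hN => ?_⟩
  have hN1' : N1 ≤ N := (le_max_left _ _).trans hN
  have hN2 : 2 / ε ≤ N := (Nat.le_ceil _).trans (by exact_mod_cast (le_max_right _ _).trans hN)
  have h1 := hN1 N hN1'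
  rw [ncard_eq] at h1 ⊢
  have hsub : (Finset.Icc 1 N).filter (fun k : ℕ => Odd k ∧ ¬ Meet k b b' (κ * Real.log k)) ⊆
      {1} ∪ ((Finset.Icc 1 N).filter
        (fun n : ℕ => ¬ Meet (2 * n + 1) b b' (κ * Real.log n))).image (fun n => 2 * n + 1) := by
    intro k hk
    rw [Finset.mem_filter, Finset.mem_Icc] at hk
    obtain ⟨⟨hk1, hkN⟩, hko, hkM⟩ := hk
    rw [Finset.mem_union, Finset.mem_singleton]
    by_cases hkK : k = 1
    · left; exact hkK
    · right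
      obtain ⟨n, hn⟩ := hko
      have hn1 : 1 ≤ n := by omega
      rw [Finset.mem_image]
      refine ⟨n, ?_, hn.symm⟩
      rw [Finset.mem_filter, Finset.mem_Icc]
      refine ⟨⟨hn1, by omega⟩, fun hall => hkM ?_⟩
      obtain ⟨i, j, hi, hj, hT⟩ := hall
      have hkc : ((k : ℕ) : ℤ) = 2 * (n : ℤ) + 1 := by rw [hn]; push_cast; ring
      have hlogk : Real.log n ≤ Real.log k :=
        Real.log_le_log (by exact_mod_cast hn1) (by exact_mod_cast (by omega : n ≤ k))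
      have hlk := mul_le_mul_of_nonneg_left hlogk hκ.le
      refine ⟨i, j, hi.trans hlk, hj.trans hlk, ?_⟩
      rw [hkc]
      exact hT
  have h2 := (Finset.card_le_card hsub).trans (Finset.card_union_le _ _)
  rw [Finset.card_singleton] at h2
  have h3 := h2.trans (Nat.add_le_add_left Finset.card_image_le _)
  have h4 : (((Finset.Icc 1 N).filter
      (fun k : ℕ => Odd k ∧ ¬ Meet k b b' (κ * Real.log k))).card : ℝ) ≤ 1 + ε / 2 * N := by
    refine le_trans (Nat.cast_le.2 h3) ?_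
    push_cast
    linarith
  rw [div_le_iff₀ hε] at hN2
  linarith

theorem slow_all {ε : ℝ} (hε : 0 < ε) : ∃ c : ℝ, 0 < c ∧ ∃ N₀ : ℕ, ∀ N : ℕ, N₀ ≤ N →
    (({k | 1 ≤ k ∧ k ≤ N ∧ Odd k ∧ ∃ b b' : ℤ, |(b : ℝ)| ≤ (N : ℝ) ^ c ∧ |(b' : ℝ)| ≤ (N : ℝ) ^ c ∧
      Sporadic k b b' ((N : ℝ) ^ c)} : Set ℕ).ncard : ℝ) ≤ ε * N := by
  classical
  obtain ⟨c, hc, N0, h⟩ := Pool.Agent.Y967.MD.slow hε
  refine ⟨c, hc, N0, fun N hN => le_trans ?_ (h N hN)⟩
  rw [ncard_eq]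
  apply Nat.cast_le.2
  have hsub : (Finset.Icc 1 N).filter (fun k : ℕ => Odd k ∧ ∃ b b' : ℤ, |(b : ℝ)| ≤ (N : ℝ) ^ c ∧
      |(b' : ℝ)| ≤ (N : ℝ) ^ c ∧ Sporadic k b b' ((N : ℝ) ^ c)) ⊆
      (Finset.Icc 1 N).filter (fun k : ℕ => k % 2 = 1 ∧
        ¬ Pool.Agent.Y967.MD.Rigid (k : ℤ) ⌊(N : ℝ) ^ c⌋₊) := by
    intro k hk
    rw [Finset.mem_filter] at hk ⊢
    obtain ⟨hk1, hk2, b, b', hb, hb', i, j, hi, hj, hT, hne⟩ := hk
    refine ⟨hk1, Nat.odd_iff.1 hk2, fun hR => hne ?_⟩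
    have hn0 : (0 : ℝ) ≤ (N : ℝ) ^ c := Real.rpow_nonneg (Nat.cast_nonneg _) _
    have habs : ∀ z : ℤ, |(z : ℝ)| ≤ (N : ℝ) ^ c → |z| ≤ (⌊(N : ℝ) ^ c⌋₊ : ℕ) := by
      intro z hz
      rw [Int.abs_eq_natAbs]
      have : z.natAbs ≤ ⌊(N : ℝ) ^ c⌋₊ := by
        apply Nat.le_floor
        rw [Nat.cast_natAbs, Int.cast_abs]
        exact hz
      exact_mod_cast this
    rw [odds_eq, odds_eq]
    exact hR.1 b b' i j (habs b hb) (habs b' hb') (Nat.le_floor hi) (Nat.le_floor hj) hT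
  refine (Finset.card_le_card hsub).trans (le_of_eq ?_)
  congr!

theorem slow_two {b b' : ℤ} (hR : ¬ Related b b') {ε : ℝ} (hε : 0 < ε) :
    ∃ c : ℝ, 0 < c ∧ ∃ N₀ : ℕ, ∀ N : ℕ, N₀ ≤ N →
    (({k | 1 ≤ k ∧ k ≤ N ∧ Odd k ∧ Meet k b b' ((N : ℝ) ^ c)} : Set ℕ).ncard : ℝ) ≤ ε * N := by
  classical
  obtain ⟨c, hc, N0, h⟩ := slow_all hε
  have ht : Tendsto (fun N : ℕ => (N : ℝ) ^ c) atTop atTop :=
    (tendsto_rpow_atTop hc).comp tendsto_natCast_atTop_atTop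
  obtain ⟨N1, hN1⟩ := eventually_atTop.1 ((ht.eventually_ge_atTop |(b : ℝ)|).and
    (ht.eventually_ge_atTop |(b' : ℝ)|))
  refine ⟨c, hc, max N0 N1, fun N hN => le_trans ?_ (h N ((le_max_left _ _).trans hN))⟩
  obtain ⟨hb, hb'⟩ := hN1 N ((le_max_right _ _).trans hN)
  rw [ncard_eq, ncard_eq]
  apply Nat.cast_le.2
  apply Finset.card_le_card
  intro k hk
  rw [Finset.mem_filter] at hk ⊢
  obtain ⟨hk1, hk2, i, j, hi, hj, hT⟩ := hk
  refine ⟨hk1, hk2, b, b', hb, hb', i, j, hi, hj, hT, fun he => hR ?_⟩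
  exact ⟨_, _, _, _, he⟩

theorem primes (b b' : ℤ) : ∃ C : ℝ, 0 < C ∧ ∀ P : ℕ, 2 ≤ P →
    ({q : ℕ | q.Prime ∧ 5 ≤ q ∧ Sporadic q b b' P} : Set ℕ).Finite ∧
    (({q : ℕ | q.Prime ∧ 5 ≤ q ∧ Sporadic q b b' P} : Set ℕ).ncard : ℝ) ≤ C * (P : ℝ) ^ 3 / Real.log P := by
  obtain ⟨C, hC, h⟩ := Pool.Agent.Y967.MD.prime_fin b b'
  refine ⟨C, hC, fun P hP => h P (fun q => 5 ≤ q ∧ Sporadic q b b' P) hP ?_⟩
  intro q hq h5 Y hqY hQ
  obtain ⟨-, i, j, hi, hj, hT, hne⟩ := hQ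
  rw [odds_eq, odds_eq] at hne
  exact Pool.Agent.Y967.MD.meet_bad hq h5 hqY (by exact_mod_cast hi) (by exact_mod_cast hj) hT hne

theorem not_related_of {k b b' : ℤ} {L : ℝ} (hR : ¬ Related b b') : Sporadic k b b' L ↔ Meet k b b' L := by
  constructor
  · rintro ⟨i, j, hi, hj, hT, -⟩
    exact ⟨i, j, hi, hj, hT⟩
  · rintro ⟨i, j, hi, hj, hT⟩
    exact ⟨i, j, hi, hj, hT, fun he => hR ⟨_, _, _, _, he⟩⟩

/-- Let `b`, `b'` be nonzero integers.
(1) If `2 ^ u 3 ^ v b = 2 ^ u' 3 ^ v' b'` for some natural numbers `u, v, u', v'` then, for all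
`κ, ε > 0` and all large `N`, the orbits of `b` and `b'` under the `3x+k` map meet within `κ log k` steps
for all but at most `ε N` of the odd `k ≤ N`, and the orbits under the `3x+q` map, `q` the `n`-th odd
prime, meet within `κ log n` steps for all but at most `ε N` of the `n ≤ N`.
(2) If there are no such numbers then for every `ε > 0` there is `c > 0` such that, for all large `N`,
these orbits meet within `N ^ c` steps for at most `ε N` of the odd `k ≤ N`.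
(3) For every `ε > 0` there is `c > 0` such that for all large `N` the following holds for all but at most
`ε N` of the odd `k ≤ N`: if `|b|, |b'|, i, j ≤ N ^ c` and the orbit of `b` at time `i` and the orbit
of `b'` at time `j` are at the same point, then `2 ^ j 3 ^ o b = 2 ^ i 3 ^ o' b'`, where `o` and `o'` are
the numbers of odd terms of the two orbits before these times.
(4) For all integers `b`, `b'` there is `C` such that, for all `P ≥ 2`, the number of the primes `q ≥ 5`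
for which the orbits of `b` and `b'` under the `3x+q` map have a coincidence with `i, j ≤ P` without this
relation is finite and at most `C P ^ 3 / log P`. If `b` and `b'` are not related as in (1), this is the
number of the primes `q ≥ 5` for which the orbits meet within `P` steps. -/
theorem result :
    (∀ b b' : ℤ, b ≠ 0 → b' ≠ 0 → Related b b' → ∀ κ ε : ℝ, 0 < κ → 0 < ε → ∃ N₀ : ℕ, ∀ N : ℕ, N₀ ≤ N →
      (({k | 1 ≤ k ∧ k ≤ N ∧ Odd k ∧ ¬ Meet k b b' (κ * Real.log k)} : Set ℕ).ncard : ℝ) ≤ ε * N ∧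
      (({n | 1 ≤ n ∧ n ≤ N ∧ ¬ Meet (Nat.nth Nat.Prime n) b b' (κ * Real.log n)} : Set ℕ).ncard : ℝ) ≤
        ε * N) ∧
    (∀ b b' : ℤ, b ≠ 0 → b' ≠ 0 → ¬ Related b b' → ∀ ε : ℝ, 0 < ε → ∃ c : ℝ, 0 < c ∧
      ∃ N₀ : ℕ, ∀ N : ℕ, N₀ ≤ N →
      (({k | 1 ≤ k ∧ k ≤ N ∧ Odd k ∧ Meet k b b' ((N : ℝ) ^ c)} : Set ℕ).ncard : ℝ) ≤ ε * N) ∧
    (∀ ε : ℝ, 0 < ε → ∃ c : ℝ, 0 < c ∧ ∃ N₀ : ℕ, ∀ N : ℕ, N₀ ≤ N →
      (({k | 1 ≤ k ∧ k ≤ N ∧ Odd k ∧ ∃ b b' : ℤ, |(b : ℝ)| ≤ (N : ℝ) ^ c ∧ |(b' : ℝ)| ≤ (N : ℝ) ^ c ∧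
        Sporadic k b b' ((N : ℝ) ^ c)} : Set ℕ).ncard : ℝ) ≤ ε * N) ∧
    (∀ b b' : ℤ, ∃ C : ℝ, 0 < C ∧ ∀ P : ℕ, 2 ≤ P →
      ({q : ℕ | q.Prime ∧ 5 ≤ q ∧ Sporadic q b b' P} : Set ℕ).Finite ∧
      (({q : ℕ | q.Prime ∧ 5 ≤ q ∧ Sporadic q b b' P} : Set ℕ).ncard : ℝ) ≤ C * (P : ℝ) ^ 3 / Real.log P) ∧
    (∀ (k b b' : ℤ) (L : ℝ), ¬ Related b b' → (Sporadic k b b' L ↔ Meet k b b' L)) := by
  refine ⟨fun b b' hb hb' hR κ ε hκ hε => ?_, fun _ _ _ _ hR _ hε => slow_two hR hε,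
    fun _ hε => slow_all hε, primes, fun _ _ _ _ hR => not_related_of hR⟩
  obtain ⟨N1, h1⟩ := fast hb hb' hR hκ hε
  obtain ⟨N2, h2⟩ := fast_seq (k := fun n => ((Nat.nth Nat.Prime n : ℕ) : ℤ))
    (spr_prime.spread (by norm_num)) (fun n hn => prime_odd hn) hb hb' hR hκ hε
  exact ⟨max N1 N2, fun N hN => ⟨h1 N ((le_max_left _ _).trans hN), h2 N ((le_max_right _ _).trans hN)⟩⟩

end Pool.Agent.Results.MP_7f88e4_nt.MeetingDichotomy
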