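import Pool.Agent.Y927.GP.K3
import Pool.Agent.Y927.GP.N

set_option autoImplicit false

/-!
# The maps `3 x + g n` started at `f n`

Let `f` and `g ≠ 0` be polynomials with integer coefficients, `deg g < deg f`. In every interval of
length `Y`, for all but `K Y^(1 - δ)` of the integers `n` with `g n` odd the first `log_2 Y` terms of the
trajectory of `f n` under the map `T_{3,k}` with `k = g n` are `(√3 / 2)^j |f n|`, up to a factor `Y^ε`.
So for all but `K X^(1 - δ)` of the integers `|n| ≤ X` with `g n` odd the trajectory of `f n` under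
`T_{3, g n}` falls below `|f n|^(1 - (1 - log 3 / log 4) / deg f + ε)`. Both the starting value and the
parameter `k` of the map vary.

Method. The trajectory of `k z` under `T_{3,k}` is `k` times the trajectory of `z` under `T_{3,1}`. So
the first `N` parities of the trajectory of `f n` under `T_{3, g n}` depend only on the `2`-adic number
`f n / g n` modulo `2^N`, and they are unbalanced only for `2^(N (1 - c))` of the classes modulo `2^N`.
If `f n g n' ≡ f n' g n` modulo `2^N` and `n ≡ n'` modulo `2^j`, where the Wronskian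
`f' n g n - f n g' n` is not divisible by `2^j`, then `n ≡ n'` modulo `2^(N - j)`. The Wronskian is not
the zero polynomial, because `deg g < deg f`, and there are few `n` for which it is divisible by a high
power of `2`.
-/

namespace Pool.Agent.Results.MP_7f88e4_nt.PolynomialPairs

open Polynomial Pool.Agent.Y927

/-- The `3 x + k` map `T_{3,k}`. -/
def T (k x : ℤ) : ℤ := if x % 2 = 0 then x / 2 else (3 * x + k) / 2

/-- For `2 ^ j ≤ Y` the term `j` of the trajectory of `x` under `T_{3,k}` has absolute value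
`(√3 / 2) ^ j |x|`, up to a factor between `Y ^ (-ε)` and `Y ^ ε`. -/
def Follows (k : ℤ) (ε Y : ℝ) (x : ℤ) : Prop :=
  ∀ j : ℕ, (2 : ℝ) ^ j ≤ Y →
    Y ^ (-ε) * (Real.sqrt 3 / 2) ^ j * |(x : ℝ)| ≤ |(((T k)^[j] x : ℤ) : ℝ)| ∧
    |(((T k)^[j] x : ℤ) : ℝ)| ≤ Y ^ ε * (Real.sqrt 3 / 2) ^ j * |(x : ℝ)|

theorem T_eq : GP.K.T = T := rfl

theorem exp_lam (j : ℕ) : Real.exp (j * GP.K.lam) = (Real.sqrt 3 / 2) ^ j := by
  rw [Real.exp_nat_mul]
  congr 1
  unfold GP.K.lam
  rw [Real.exp_sub, Real.exp_log (by norm_num : (0 : ℝ) < 2), ← Real.log_sqrt (by norm_num),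
    Real.exp_log (Real.sqrt_pos.2 (by norm_num))]

theorem follows_iff (k : ℤ) (ε Y : ℝ) (x : ℤ) : GP.K.TypK k ε Y x ↔ Follows k ε Y x := by
  unfold GP.K.TypK Follows
  simp only [exp_lam, T_eq]

/-- Let `f`, `g` be polynomials with integer coefficients, `g ≠ 0`, `deg g < deg f`, and `ε > 0`.
(1) In every interval of length `Y ≥ 1`, for all but `K Y^(1 - δ)` of the integers `n` with `g n` odd the
first `log_2 Y` terms of the trajectory of `f n` under `T_{3, g n}` are `(√3 / 2) ^ j |f n|` up to a factor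
`Y ^ ε`.
(2) For all but `K X^(1 - δ)` of the integers `|n| ≤ X` with `g n` odd some term of the trajectory of
`f n` under `T_{3, g n}` has absolute value at most `|f n|^(1 - (1 - log 3 / log 4) / deg f + ε)`. -/
theorem result (f g : ℤ[X]) (hg : g ≠ 0) (hdeg : g.natDegree < f.natDegree) (ε : ℝ) (hε : 0 < ε) :
    (∃ δ K : ℝ, 0 < δ ∧ 0 < K ∧ ∀ (X : ℤ) (Y : ℝ), 1 ≤ Y →
      ({n : ℤ | X < n ∧ (n : ℝ) ≤ X + Y ∧ g.eval n % 2 = 1 ∧
        ¬ Follows (g.eval n) ε Y (f.eval n)}.ncard : ℝ) ≤ K * Y ^ (1 - δ)) ∧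
    (∃ δ K : ℝ, 0 < δ ∧ 0 < K ∧ ∀ X : ℝ, 1 ≤ X →
      ({n : ℤ | |(n : ℝ)| ≤ X ∧ g.eval n % 2 = 1 ∧ ∀ j : ℕ,
        |((f.eval n : ℤ) : ℝ)| ^ (1 - (1 - Real.log 3 / Real.log 4) / f.natDegree + ε) <
          |(((T (g.eval n))^[j] (f.eval n) : ℤ) : ℝ)|}.ncard : ℝ) ≤ K * X ^ (1 - δ)) := by
  constructor
  · obtain ⟨δ, K, hδ, -, hK, h⟩ := GP.K.main hg hdeg hε
    refine ⟨δ, K, hδ, hK, fun X Y hY => ?_⟩
    apply GP.ncard_int
    intro A hA hP
    apply h X Y hY A hA
    intro n hn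
    obtain ⟨h1, h2⟩ := hP n hn
    exact ⟨h1, fun h3 => h2 ((follows_iff _ _ _ _).1 h3)⟩
  · obtain ⟨δ, K, hδ, -, hK, h⟩ := GP.K.lowK hg hdeg hε
    refine ⟨δ, K, hδ, hK, fun X hX => ?_⟩
    apply GP.ncard_sym
    intro A hP
    apply h X hX A
    intro n hn
    exact hP n hn

end Pool.Agent.Results.MP_7f88e4_nt.PolynomialPairs
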